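import Mathlib
import Pool.Agent.X72.Veto

/-! A veto interval graph that is not a midpoint veto interval graph. -/

namespace Pool.Agent.Results.MP_c8a11a_co.VINotMVI

open Pool.Agent.X72.Veto

/-- free vertices and reference vertices -/
abbrev Vert (d : ℕ) : Type := (Fin d × Fin d × Fin d) ⊕ (Fin 3 × Fin d)

/-- left ends -/
noncomputable def lo (d : ℕ) : Vert d → ℝ
  | .inl p => (p.1 : ℕ)
  | .inr (0, _) => -2
  | .inr (1, _) => -2
  | .inr (2, j) => 4 * d + (j : ℕ) + 1 / 2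

/-- marks -/
noncomputable def m1 (d : ℕ) : Vert d → ℝ
  | .inl p => 2 * d + (p.2.1 : ℕ)
  | .inr (0, _) => -1
  | .inr (1, _) => -1
  | .inr (2, _) => 6 * d

/-- right ends -/
noncomputable def hi (d : ℕ) : Vert d → ℝ
  | .inl p => 4 * d + (p.2.2 : ℕ)
  | .inr (0, j) => (j : ℕ) + 1 / 2
  | .inr (1, j) => 2 * d + (j : ℕ) + 1 / 2
  | .inr (2, _) => 6 * d + 1

/-- the graph -/
def G (d : ℕ) : SimpleGraph (Vert d) where
  Adj a b := a ≠ b ∧ ((m1 d a < lo d b ∧ lo d b < hi d a ∧ hi d a < m1 d b) ∨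
    (m1 d b < lo d a ∧ lo d a < hi d b ∧ hi d b < m1 d a))
  symm := ⟨fun _ _ h => ⟨h.1.symm, h.2.symm⟩⟩
  loopless := ⟨fun _ h => h.1 rfl⟩

theorem fin_cast {d : ℕ} (i : Fin d) : (0 : ℝ) ≤ ((i : ℕ) : ℝ) ∧ ((i : ℕ) : ℝ) + 1 ≤ d := by
  refine ⟨by positivity, ?_⟩
  exact_mod_cast i.2

theorem cast_half {i j : ℕ} : ((i : ℝ) < (j : ℝ) + 1 / 2 ↔ i ≤ j) ∧
    ((j : ℝ) + 1 / 2 < (i : ℝ) ↔ j < i) := by
  constructor
  · constructor
    · intro h
      by_contra hlt
      push Not at hlt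
      have : (j : ℝ) + 1 ≤ i := by exact_mod_cast hlt
      linarith
    · intro h
      have : (i : ℝ) ≤ j := by exact_mod_cast h
      linarith
  · constructor
    · intro h
      by_contra hlt
      push Not at hlt
      have : (i : ℝ) ≤ j := by exact_mod_cast hlt
      linarith
    · intro h
      have : (j : ℝ) + 1 ≤ i := by exact_mod_cast h
      linarith

theorem isVI (d : ℕ) : IsVI (G d) := by
  refine ⟨lo d, m1 d, hi d, ?_, ?_, ?_⟩
  · rintro (⟨i, j, k⟩ | ⟨c, j⟩)
    · have h1 := fin_cast i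
      have h2 := fin_cast j
      have h3 := fin_cast k
      simp only [lo, m1, hi]
      refine ⟨?_, ?_⟩ <;> linarith [h1.1, h1.2, h2.1, h2.2, h3.1, h3.2]
    · have h1 := fin_cast j
      fin_cases c <;> simp only [lo, m1, hi] <;>
        refine ⟨?_, ?_⟩ <;> linarith [h1.1, h1.2]
  · rintro (⟨i, j, k⟩ | ⟨c, j⟩) (⟨i', j', k'⟩ | ⟨c', j'⟩) h
    · simp only [lo, m1, hi, Prod.mk.injEq, Nat.cast_inj, add_right_inj] at h
      obtain ⟨h1, h2, h3⟩ := h
      rw [Fin.ext h1, Fin.ext h2, Fin.ext h3]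
    · exfalso
      have h1 := fin_cast i
      have h2 := fin_cast j
      have h3 := fin_cast j'
      have hl := congrArg Prod.fst h
      fin_cases c' <;> simp only [lo] at hl <;> linarith [h1.1, h1.2, h2.1, h2.2, h3.1, h3.2]
    · exfalso
      have h1 := fin_cast i'
      have h2 := fin_cast j
      have h3 := fin_cast j'
      have hl := congrArg Prod.fst h
      fin_cases c <;> simp only [lo] at hl <;> linarith [h1.1, h1.2, h2.1, h2.2, h3.1, h3.2]
    · have h2 := fin_cast j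
      have h3 := fin_cast j'
      have hl := congrArg Prod.fst h
      have hr := congrArg (fun p => p.2.2) h
      have hj : ((j : ℕ) : ℝ) = (j' : ℕ) → j = j' := fun e => Fin.ext (by exact_mod_cast e)
      fin_cases c <;> fin_cases c' <;> simp only [lo, hi] at hl hr <;>
        first
          | exact congrArg (fun x => Sum.inr (_, x)) (hj (by linarith))
          | (exfalso; linarith [h2.1, h2.2, h3.1, h3.2])
  · intro a b hab
    simp only [G, hab, ne_eq, not_false_eq_true, true_and]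

theorem adj0 (d : ℕ) (p : Fin d × Fin d × Fin d) (j : Fin d) :
    (G d).Adj (.inl p) (.inr (0, j)) ↔ (p.1 : ℕ) ≤ j := by
  have h1 := fin_cast p.1
  have h2 := fin_cast p.2.1
  have h3 := fin_cast p.2.2
  have h5 := fin_cast j
  have h6 := (cast_half (i := p.1) (j := j)).1
  simp only [G, ne_eq, reduceCtorEq, not_false_eq_true, true_and, lo, m1, hi]
  rw [← h6]
  constructor
  · rintro (⟨h, -, -⟩ | ⟨-, h, -⟩)
    · exfalso; linarith [h1.1, h2.1]
    · exact h
  · intro h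
    exact Or.inr ⟨by linarith [h1.1], h, by linarith [h5.2, h2.1]⟩

theorem adj1 (d : ℕ) (p : Fin d × Fin d × Fin d) (j : Fin d) :
    (G d).Adj (.inl p) (.inr (1, j)) ↔ (j : ℕ) < p.2.1 := by
  have h1 := fin_cast p.1
  have h2 := fin_cast p.2.1
  have h3 := fin_cast p.2.2
  have h5 := fin_cast j
  have h6 := (cast_half (i := p.2.1) (j := j)).2
  simp only [G, ne_eq, reduceCtorEq, not_false_eq_true, true_and, lo, m1, hi]
  rw [← h6]
  constructor
  · rintro (⟨h, -, -⟩ | ⟨-, -, h⟩)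
    · exfalso; linarith [h1.1, h2.1]
    · linarith
  · intro h
    exact Or.inr ⟨by linarith [h1.1], by linarith [h1.2, h5.1], by linarith⟩

theorem adj2 (d : ℕ) (p : Fin d × Fin d × Fin d) (j : Fin d) :
    (G d).Adj (.inl p) (.inr (2, j)) ↔ (j : ℕ) < p.2.2 := by
  have h1 := fin_cast p.1
  have h2 := fin_cast p.2.1
  have h3 := fin_cast p.2.2
  have h5 := fin_cast j
  have h6 := (cast_half (i := p.2.2) (j := j)).2
  simp only [G, ne_eq, reduceCtorEq, not_false_eq_true, true_and, lo, m1, hi]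
  rw [← h6]
  constructor
  · rintro (⟨-, h, -⟩ | ⟨h, -, -⟩)
    · linarith
    · exfalso; linarith [h1.2, h5.1]
  · intro h
    exact Or.inl ⟨by linarith [h2.2, h5.1], by linarith, by linarith [h3.2]⟩

theorem distinct (d : ℕ) (p q : Fin d × Fin d × Fin d) (h : p ≠ q) :
    ∃ b : Fin 3 × Fin d, ¬ ((G d).Adj (.inl p) (.inr b) ↔ (G d).Adj (.inl q) (.inr b)) := by
  have key1 : ∀ x y : Fin d, x ≠ y → ∃ j : Fin d, ¬ ((x : ℕ) ≤ j ↔ (y : ℕ) ≤ j) := by
    intro x y hxy
    have hne : (x : ℕ) ≠ y := fun e => hxy (Fin.ext e)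
    rcases lt_or_gt_of_ne hne with h | h
    · exact ⟨x, fun e => absurd (e.mp le_rfl) (by omega)⟩
    · exact ⟨y, fun e => absurd (e.mpr le_rfl) (by omega)⟩
  have key2 : ∀ x y : Fin d, x ≠ y → ∃ j : Fin d, ¬ ((j : ℕ) < x ↔ (j : ℕ) < y) := by
    intro x y hxy
    obtain ⟨j, hj⟩ := key1 x y hxy
    exact ⟨j, fun e => hj (by rw [← not_lt, ← not_lt, e])⟩
  by_cases h1 : p.1 = q.1
  · by_cases h2 : p.2.1 = q.2.1
    · have h3 : p.2.2 ≠ q.2.2 := fun e => h (Prod.ext h1 (Prod.ext h2 e))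
      obtain ⟨j, hj⟩ := key2 _ _ h3
      exact ⟨(2, j), by rw [adj2, adj2]; exact hj⟩
    · obtain ⟨j, hj⟩ := key2 _ _ h2
      exact ⟨(1, j), by rw [adj1, adj1]; exact hj⟩
  · obtain ⟨j, hj⟩ := key1 _ _ h1
    exact ⟨(0, j), by rw [adj0, adj0]; exact hj⟩

theorem notMVI : ¬ IsMVI (G 200) := by
  intro h
  have := MVI_card_le h (fun p => Sum.inl p) (fun b => Sum.inr b) (by simp) (distinct 200)
  simp only [Fintype.card_prod, Fintype.card_fin] at this
  norm_num at this

/-- There is a finite veto interval graph that is not a midpoint veto interval graph. -/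
theorem result : ∃ (V : Type) (_ : Finite V) (G : SimpleGraph V), IsVI G ∧ ¬ IsMVI G :=
  ⟨Vert 200, inferInstance, G 200, isVI 200, notMVI⟩

end Pool.Agent.Results.MP_c8a11a_co.VINotMVI
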